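import Mathlib

/-!
# GK/H1 (helper661): Hölder's inequality
-/

set_option autoImplicit false
open MeasureTheory Filter Topology

namespace Pool.Agent.N661.GK

theorem amgm {k j : ℕ} (hk : 1 ≤ k) (hj : j ≤ k) {a b : ℝ} (ha : 0 ≤ a) (hb : 0 ≤ b) :
    a ^ (k - j) * b ^ j ≤ ((k : ℝ) - j) / k * a ^ k + (j : ℝ) / k * b ^ k := by
  have hk0 : (0 : ℝ) < k := by exact_mod_cast hk
  have hj1 : (j : ℝ) ≤ k := by exact_mod_cast hj
  have h := Real.geom_mean_le_arith_mean2_weighted (w₁ := ((k : ℝ) - j) / k) (w₂ := (j : ℝ) / k)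
    (p₁ := a ^ k) (p₂ := b ^ k) (div_nonneg (by linarith) hk0.le)
    (div_nonneg (Nat.cast_nonneg _) hk0.le) (pow_nonneg ha _) (pow_nonneg hb _)
    (by field_simp; ring)
  have e1 : (a ^ k) ^ (((k : ℝ) - j) / k) = a ^ (k - j) := by
    rw [← Real.rpow_natCast a k, ← Real.rpow_mul ha, ← Real.rpow_natCast a (k - j),
      Nat.cast_sub hj]
    congr 1
    field_simp
  have e2 : (b ^ k) ^ ((j : ℝ) / k) = b ^ j := by
    rw [← Real.rpow_natCast b k, ← Real.rpow_mul hb, ← Real.rpow_natCast b j]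
    congr 1
    field_simp
  rw [e1, e2] at h
  exact h

theorem holder_pos {k j : ℕ} (hk : 1 ≤ k) (hj : j ≤ k) {q ν : ℝ → ℝ} (hq : Continuous q)
    (hν : Continuous ν) (ν0 : ∀ x, 0 ≤ ν x) {G y : ℝ} (hy : 0 < y)
    (hG : ∫ x in (0:ℝ)..1, q x ^ (2 * k) ≤ G) (hF : ∫ x in (0:ℝ)..1, ν x ^ k ≤ G * y ^ k) :
    ∫ x in (0:ℝ)..1, q x ^ (2 * k - 2 * j) * ν x ^ j ≤ G * y ^ j := by
  have hk0 : (0 : ℝ) < k := by exact_mod_cast hk
  have hj1 : (j : ℝ) ≤ k := by exact_mod_cast hj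
  have hyk : 0 < y ^ k := pow_pos hy _
  have hyj : 0 < y ^ j := pow_pos hy _
  have i1 : IntervalIntegrable (fun x => y ^ j * (((k : ℝ) - j) / k) * q x ^ (2 * k)) volume 0 1 :=
    (continuous_const.mul (hq.pow _)).intervalIntegrable _ _
  have i2 : IntervalIntegrable (fun x => y ^ j * ((j : ℝ) / k / y ^ k) * ν x ^ k) volume 0 1 :=
    (continuous_const.mul (hν.pow _)).intervalIntegrable _ _
  have h1 : ∫ x in (0:ℝ)..1, q x ^ (2 * k - 2 * j) * ν x ^ j ≤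
      ∫ x in (0:ℝ)..1, (y ^ j * (((k : ℝ) - j) / k) * q x ^ (2 * k) +
        y ^ j * ((j : ℝ) / k / y ^ k) * ν x ^ k) := by
    refine intervalIntegral.integral_mono_on zero_le_one
      (((hq.pow _).mul (hν.pow _)).intervalIntegrable _ _) (i1.add i2) fun x _ => ?_
    have h := mul_le_mul_of_nonneg_left
      (amgm hk hj (sq_nonneg (q x)) (div_nonneg (ν0 x) hy.le)) hyj.le
    have e1 : y ^ j * ((q x ^ 2) ^ (k - j) * (ν x / y) ^ j) = q x ^ (2 * k - 2 * j) * ν x ^ j := by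
      rw [← pow_mul, div_pow]
      have : 2 * (k - j) = 2 * k - 2 * j := by omega
      rw [this]
      field_simp
    rw [e1] at h
    refine h.trans (le_of_eq ?_)
    rw [← pow_mul, div_pow]
    ring
  refine h1.trans ?_
  rw [intervalIntegral.integral_add i1 i2, intervalIntegral.integral_const_mul,
    intervalIntegral.integral_const_mul]
  have h2 := mul_le_mul_of_nonneg_left hG
    (mul_nonneg hyj.le (div_nonneg (sub_nonneg.2 hj1) hk0.le))
  have h3 := mul_le_mul_of_nonneg_left hF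
    (mul_nonneg hyj.le (div_nonneg (div_nonneg (Nat.cast_nonneg j) hk0.le) hyk.le))
  refine (add_le_add h2 h3).trans (le_of_eq ?_)
  field_simp
  ring

/-- H1: Hoelder's inequality -/
theorem holder {k j : ℕ} (hk : 1 ≤ k) (hj : j ≤ k) {q ν : ℝ → ℝ} (hq : Continuous q)
    (hν : Continuous ν) (ν0 : ∀ x, 0 ≤ ν x) {G y : ℝ} (hG0 : 0 < G) (hy : 0 ≤ y)
    (hG : ∫ x in (0:ℝ)..1, q x ^ (2 * k) ≤ G) (hF : ∫ x in (0:ℝ)..1, ν x ^ k ≤ G * y ^ k) :
    ∫ x in (0:ℝ)..1, q x ^ (2 * k - 2 * j) * ν x ^ j ≤ G * y ^ j := by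
  have hc : Tendsto (fun z : ℝ => G * z ^ j) (𝓝[>] y) (𝓝 (G * y ^ j)) :=
    ((by fun_prop : Continuous fun z : ℝ => G * z ^ j).tendsto y).mono_left nhdsWithin_le_nhds
  refine ge_of_tendsto hc ?_
  filter_upwards [self_mem_nhdsWithin] with z hz
  have hz' : y < z := hz
  refine holder_pos hk hj hq hν ν0 (hy.trans_lt hz') hG (hF.trans ?_)
  exact mul_le_mul_of_nonneg_left (pow_le_pow_left₀ hy hz'.le k) hG0.le

end Pool.Agent.N661.GK
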