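import Pool.Agent.N869.GK.StmX

/-!
# GK-TWOT: the points of order two
-/

set_option autoImplicit false
set_option linter.unusedVariables false

open scoped Classical

namespace Pool.Agent.N661.GK

open WeierstrassCurve
open Pool.Agent.N869.GK.X

theorem eq_iff {K : Type} [Field K] (e1 e2 e3 x y : K) :
    (Wk e1 e2 e3).toAffine.Equation x y ↔ y ^ 2 = (x - e1) * (x - e2) * (x - e3) := by
  rw [Affine.equation_iff]
  simp only [Wk, toAffine]
  constructor
  · intro h
    linear_combination h
  · intro h
    linear_combination h

theorem ns_iff {K : Type} [Field K] (e1 e2 e3 x : K) :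
    (Wk e1 e2 e3).toAffine.Nonsingular x 0 ↔ 0 = (x - e1) * (x - e2) * (x - e3) ∧
      (x - e2) * (x - e3) + (x - e1) * (x - e3) + (x - e1) * (x - e2) ≠ 0 := by
  rw [Affine.nonsingular_iff, eq_iff]
  simp only [Wk, toAffine]
  have e0 : (0 : K) ^ 2 = 0 := by ring
  rw [e0]
  apply and_congr Iff.rfl
  constructor
  · intro h h'
    rcases h with h | h
    · apply h
      linear_combination -h'
    · apply h
      ring
  · intro h
    left
    intro h'
    apply h
    linear_combination -h'

theorem t_TWOT : Pool.Agent.N869.GK.X.S_TWOT := by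
  intro K _ _ e1 e2 e3 h12 h13 h23
  have s12 : e1 - e2 ≠ 0 := sub_ne_zero.2 h12
  have s13 : e1 - e3 ≠ 0 := sub_ne_zero.2 h13
  have s23 : e2 - e3 ≠ 0 := sub_ne_zero.2 h23
  have s21 : e2 - e1 ≠ 0 := sub_ne_zero.2 h12.symm
  have s31 : e3 - e1 ≠ 0 := sub_ne_zero.2 h13.symm
  have s32 : e3 - e2 ≠ 0 := sub_ne_zero.2 h23.symm
  have n1 : (Wk e1 e2 e3).toAffine.Nonsingular e1 0 := by
    rw [ns_iff]
    refine ⟨by ring, ?_⟩
    have : (e1 - e2) * (e1 - e3) + (e1 - e1) * (e1 - e3) + (e1 - e1) * (e1 - e2)
        = (e1 - e2) * (e1 - e3) := by ring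
    rw [this]
    exact mul_ne_zero s12 s13
  have n2 : (Wk e1 e2 e3).toAffine.Nonsingular e2 0 := by
    rw [ns_iff]
    refine ⟨by ring, ?_⟩
    have : (e2 - e2) * (e2 - e3) + (e2 - e1) * (e2 - e3) + (e2 - e1) * (e2 - e2)
        = (e2 - e1) * (e2 - e3) := by ring
    rw [this]
    exact mul_ne_zero s21 s23
  have n3 : (Wk e1 e2 e3).toAffine.Nonsingular e3 0 := by
    rw [ns_iff]
    refine ⟨by ring, ?_⟩
    have : (e3 - e2) * (e3 - e3) + (e3 - e1) * (e3 - e3) + (e3 - e1) * (e3 - e2)
        = (e3 - e1) * (e3 - e2) := by ring
    rw [this]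
    exact mul_ne_zero s31 s32
  set A : Finset (Wk e1 e2 e3).toAffine.Point :=
    {0, Affine.Point.some e1 0 n1, Affine.Point.some e2 0 n2, Affine.Point.some e3 0 n3} with hA
  have hcard : A.card = 4 := by
    rw [hA, Finset.card_insert_of_notMem, Finset.card_insert_of_notMem,
      Finset.card_insert_of_notMem, Finset.card_singleton]
    · simp only [Finset.mem_singleton, Affine.Point.some.injEq, not_and]
      intro h
      exact absurd h h23
    · simp only [Finset.mem_insert, Finset.mem_singleton, Affine.Point.some.injEq, not_or, not_and]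
      exact ⟨fun h => absurd h h12, fun h => absurd h h13⟩
    · simp only [Finset.mem_insert, Finset.mem_singleton, not_or]
      exact ⟨(Affine.Point.some_ne_zero n1).symm, (Affine.Point.some_ne_zero n2).symm,
        (Affine.Point.some_ne_zero n3).symm⟩
  have hny : ∀ x y : K, (Wk e1 e2 e3).toAffine.negY x y = -y := by
    intro x y
    simp [Affine.negY, Wk, toAffine]
  have hmem : ∀ P : (Wk e1 e2 e3).toAffine.Point, P + P = 0 ↔ P ∈ A := by
    intro P
    rw [hA]
    simp only [Finset.mem_insert, Finset.mem_singleton]
    constructor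
    · intro hP
      rcases P with _ | ⟨x, y, h⟩
      · left
        rfl
      · right
        have hy : y = 0 := by
          by_contra hy
          have hne : y ≠ (Wk e1 e2 e3).toAffine.negY x y := by
            rw [hny]
            intro h0
            apply hy
            have h2 : (2 : K) * y = 0 := by linear_combination h0
            rcases mul_eq_zero.1 h2 with h3 | h3
            · exact absurd h3 two_ne_zero
            · exact h3
          rw [Affine.Point.add_self_of_Y_ne hne] at hP
          exact Affine.Point.some_ne_zero _ hP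
        subst hy
        have h0 := ((ns_iff e1 e2 e3 x).1 h).1
        rcases mul_eq_zero.1 h0.symm with h1 | h1
        · rcases mul_eq_zero.1 h1 with h1 | h1
          · left
            have : x = e1 := sub_eq_zero.1 h1
            subst this
            rfl
          · right; left
            have : x = e2 := sub_eq_zero.1 h1
            subst this
            rfl
        · right; right
          have : x = e3 := sub_eq_zero.1 h1
          subst this
          rfl
    · have hz : ∀ (x : K) (h : (Wk e1 e2 e3).toAffine.Nonsingular x 0),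
          Affine.Point.some x 0 h + Affine.Point.some x 0 h = 0 := by
        intro x h
        apply Affine.Point.add_self_of_Y_eq
        rw [hny]
        simp
      rintro (h | h | h | h)
      · rw [h]; simp
      · rw [h]; exact hz _ _
      · rw [h]; exact hz _ _
      · rw [h]; exact hz _ _
  have hc : Nat.card {P : (Wk e1 e2 e3).toAffine.Point // P + P = 0} = Nat.card A :=
    Nat.card_congr (Equiv.subtypeEquivRight hmem)
  rw [hc, Nat.card_eq_fintype_card, Fintype.card_coe, hcard]

end Pool.Agent.N661.GK
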